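import Mathlib

/-!
# MP_6ad575_co: `d(S, R) < ∞` does not bound the relative Davenport constants of `S/H`

Counterexample: `S = (finite subsets of ℕ, ∪) × ({0, 1, 2}, min (k + l) 2)`.
-/

open Finset

namespace Pool.Agent.Results.MP_6ad575_co.Unbounded

section General

variable {S : Type*} [AddCommSemigroup S]

/-- the multiple `(n + 1) x` -/
def mult (x : S) : ℕ → S
  | 0 => x
  | n + 1 => mult x n + x

/-- the cyclic subsemigroup `⟨x⟩` -/
def cyc (x : S) : Set S := Set.range (mult x)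

/-- `S` is periodic -/
def Periodic (S : Type*) [AddCommSemigroup S] : Prop := ∀ x : S, (cyc x).Finite

open Classical in
/-- the idempotent `e(x)` in `⟨x⟩` (if there is one) -/
noncomputable def e (x : S) : S := if h : ∃ y, y ∈ cyc x ∧ y + y = y then h.choose else x

/-- `⟨x⟩` is a group -/
def IsGroup (x : S) : Prop :=
  ∃ z ∈ cyc x, (∀ y ∈ cyc x, z + y = y) ∧ ∀ y ∈ cyc x, ∃ y' ∈ cyc x, y + y' = z

/-- the product of a list is nonzero (the empty product counts as nonzero) -/
def NonzeroProd {A : Type*} [Mul A] [Zero A] : List A → Prop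
  | [] => True
  | a :: l => l.foldl (· * ·) a ≠ 0

theorem nonzeroProd_cons {A : Type*} [Mul A] [Zero A] (a : A) (l : List A) :
    NonzeroProd (a :: l) ↔ l.foldl (· * ·) a ≠ 0 := Iff.rfl

/-- `X^s - a X^(e(s))` in the semigroup ring -/
noncomputable def factor (R : Type*) [CommRing R] (s : S) (a : R) : AddMonoidAlgebra R S :=
  AddMonoidAlgebra.single s 1 - AddMonoidAlgebra.single (e s) a

/-- `d(S, R)` -/
noncomputable def d (S : Type*) [AddCommSemigroup S] (R : Type*) [CommRing R] : ℕ∞ :=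
  ⨆ ℓ ∈ {ℓ : ℕ | ∃ s : Fin ℓ → S, ∀ a : Fin ℓ → R, (∀ i, a i ≠ 0) →
    NonzeroProd (List.ofFn fun i => factor R (s i) (a i))}, (ℓ : ℕ∞)

/-- the divisibility preorder -/
def le (a b : S) : Prop := a = b ∨ ∃ c, a = b + c

theorem le_trans' {a b c : S} (h1 : le a b) (h2 : le b c) : le a c := by
  rcases h1 with rfl | ⟨x, rfl⟩
  · exact h2
  · rcases h2 with rfl | ⟨y, rfl⟩
    · exact Or.inr ⟨x, rfl⟩
    · exact Or.inr ⟨y + x, by rw [add_assoc]⟩

theorem le_add {a b c e : S} (h1 : le a b) (h2 : le c e) : le (a + c) (b + e) := by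
  rcases h1 with rfl | ⟨x, rfl⟩ <;> rcases h2 with rfl | ⟨y, rfl⟩
  · exact Or.inl rfl
  · exact Or.inr ⟨y, by rw [add_assoc]⟩
  · exact Or.inr ⟨x, by rw [add_assoc, add_comm x c, add_assoc]⟩
  · exact Or.inr ⟨x + y, by rw [add_add_add_comm]⟩

/-- Green's relation `H` on a commutative semigroup, a congruence -/
def H (S : Type*) [AddCommSemigroup S] : AddCon S where
  r a b := le a b ∧ le b a
  iseqv :=
    { refl := fun _ => ⟨Or.inl rfl, Or.inl rfl⟩
      symm := fun h => ⟨h.2, h.1⟩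
      trans := fun h1 h2 => ⟨le_trans' h1.1 h2.1, le_trans' h2.2 h1.2⟩ }
  add' := fun h1 h2 => ⟨le_add h1.1 h2.1, le_add h1.2 h2.2⟩

/-- the sum of a (sub)sequence, in the semigroup with a new element `0` (the value of the empty
sum) -/
def sum {T : Type*} [AddCommSemigroup T] {ℓ : ℕ} (t : Fin ℓ → T) (I : Finset (Fin ℓ)) :
    WithZero T := ∑ i ∈ I, (t i : WithZero T)

/-- `z` is the identity of `T` -/
def IsIdentity {T : Type*} [AddCommSemigroup T] (z : T) : Prop := ∀ t, z + t = t

/-- some proper subsequence has the same sum; the empty subsequence counts if `T` has an identity -/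
def Reducible {T : Type*} [AddCommSemigroup T] {ℓ : ℕ} (t : Fin ℓ → T) : Prop :=
  (∃ I : Finset (Fin ℓ), I ≠ univ ∧ I.Nonempty ∧ sum t I = sum t univ) ∨
  ∃ z : T, IsIdentity z ∧ sum t univ = (z : WithZero T)

/-- `D_b(T)` -/
noncomputable def D {T : Type*} [AddCommSemigroup T] (b : T) : ℕ∞ :=
  ⨆ ℓ ∈ {ℓ : ℕ | ∃ t : Fin ℓ → T, sum t univ = (b : WithZero T) ∧ ¬ Reducible t}, (ℓ : ℕ∞)

end General

/-- the semigroup of the pairs (finite set of natural numbers, element of `{0, 1, 2}`) -/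
@[ext] structure M where
  /-- the set -/
  u : Finset ℕ
  /-- the number -/
  k : Fin 3

instance : Add M := ⟨fun a b => ⟨a.u ∪ b.u, ⟨min (a.k.val + b.k.val) 2, by omega⟩⟩⟩

theorem add_u (a b : M) : (a + b).u = a.u ∪ b.u := rfl

theorem add_k (a b : M) : ((a + b).k : ℕ) = min (a.k.val + b.k.val) 2 := rfl

instance : AddCommSemigroup M where
  add_assoc a b c := by
    ext1
    · simp only [add_u, union_assoc]
    · apply Fin.ext
      simp only [add_k]
      omega
  add_comm a b := by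
    ext1
    · simp only [add_u, union_comm]
    · apply Fin.ext
      simp only [add_k]
      omega

theorem mult_u (x : M) (n : ℕ) : (mult x n).u = x.u := by
  induction n with
  | zero => rfl
  | succ n ih => rw [mult, add_u, ih, union_self]

theorem mult_k (x : M) (n : ℕ) : ((mult x n).k : ℕ) = min ((n + 1) * x.k.val) 2 := by
  induction n with
  | zero =>
    have := x.k.isLt
    simp only [mult]
    omega
  | succ n ih =>
    rw [mult, add_k, ih]
    have : (n + 1 + 1) * (x.k : ℕ) = (n + 1) * x.k + x.k := by ring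
    rw [this]
    omega

theorem periodic : Periodic M := by
  intro x
  refine Set.Finite.subset (Set.finite_range fun k : Fin 3 => (⟨x.u, k⟩ : M)) ?_
  rintro _ ⟨n, rfl⟩
  exact ⟨(mult x n).k, by ext1 <;> simp [mult_u]⟩

theorem e_eq (x : M) : e x = ⟨x.u, if x.k = 0 then 0 else 2⟩ := by
  have hex : ∃ y, y ∈ cyc x ∧ y + y = y := by
    refine ⟨⟨x.u, if x.k = 0 then 0 else 2⟩, ⟨1, ?_⟩, ?_⟩
    · ext1
      · exact mult_u x 1
      · apply Fin.ext
        rw [mult_k]
        have := x.k.isLt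
        by_cases h : x.k = 0
        · simp [h]
        · have h' : (x.k : ℕ) ≠ 0 := fun h0 => h (Fin.ext h0)
          simp only [h, if_false]
          show _ = 2
          omega
    · ext1
      · rw [add_u, union_self]
      · apply Fin.ext
        rw [add_k]
        by_cases h : x.k = 0
        · simp [h]
        · simp [h]
  have hspec := hex.choose_spec
  have he : e x = hex.choose := by
    unfold e
    rw [dif_pos hex]
  rw [he]
  obtain ⟨⟨n, hn⟩, hid⟩ := hspec
  set y := hex.choose with hy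
  have hk := congrArg (fun z : M => (z.k : ℕ)) hid
  simp only [add_k] at hk
  have hk2 : (y.k : ℕ) = min ((n + 1) * x.k.val) 2 := by rw [← hn, mult_k]
  ext1
  · rw [← hn]
    exact mult_u x n
  · apply Fin.ext
    by_cases h : x.k = 0
    · simp only [h, if_true]
      rw [hk2, h]
      simp
    · have h' : (x.k : ℕ) ≠ 0 := fun h0 => h (Fin.ext h0)
      have h2 : 1 ≤ (n + 1) * (x.k : ℕ) := Nat.one_le_iff_ne_zero.2 (by positivity)
      simp only [h, if_false]
      show (y.k : ℕ) = 2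
      omega

theorem le_iff {a b : M} (h : le a b) : b.u ⊆ a.u ∧ (b.k : ℕ) ≤ a.k := by
  rcases h with rfl | ⟨c, rfl⟩
  · exact ⟨subset_rfl, le_rfl⟩
  · refine ⟨by rw [add_u]; exact subset_union_left, ?_⟩
    rw [add_k]
    have := b.k.isLt
    omega

theorem H_eq {a b : M} (h : H M a b) : a = b := by
  obtain ⟨h1, h2⟩ := h
  ext1
  · exact subset_antisymm (le_iff h2).1 (le_iff h1).1
  · exact Fin.ext (le_antisymm (le_iff h2).2 (le_iff h1).2)

theorem coe_inj {a b : M} (h : (a : (H M).Quotient) = b) : a = b := H_eq ((H M).eq.1 h)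

/-- sums of sequences of elements of `S/H` -/
theorem sum_eq {ℓ : ℕ} (s : Fin ℓ → M) (I : Finset (Fin ℓ)) (hI : I.Nonempty) :
    ∃ x : M, sum (fun i => ((s i : M) : (H M).Quotient)) I =
      (((x : M) : (H M).Quotient) : WithZero (H M).Quotient) ∧
      x.u = I.biUnion (fun i => (s i).u) ∧ (x.k : ℕ) = min (∑ i ∈ I, ((s i).k : ℕ)) 2 := by
  classical
  induction hI using Finset.Nonempty.cons_induction with
  | singleton a =>
    refine ⟨s a, by simp [sum], by simp, ?_⟩
    have := (s a).k.isLt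
    rw [sum_singleton]
    omega
  | cons a I ha hI ih =>
    obtain ⟨x, h1, h2, h3⟩ := ih
    refine ⟨s a + x, ?_, ?_, ?_⟩
    · unfold sum at h1 ⊢
      rw [sum_cons, h1, ← WithZero.coe_add, ← AddCon.coe_add]
    · rw [add_u, h2, cons_eq_insert, biUnion_insert]
    · rw [add_k, h3, sum_cons]
      omega

section Ring

variable (R : Type*) [CommRing R]

theorem factor_zero (s : M) (h : s.k = 0) : factor R s 1 = 0 := by
  have he : e s = s := by
    rw [e_eq]
    ext1
    · rfl
    · simp [h]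
  rw [factor, he, sub_self]

theorem factor_mul (s t : M) : factor R s 1 * factor R t 1 = 0 := by
  by_cases hs : s.k = 0
  · rw [factor_zero R s hs, zero_mul]
  by_cases ht : t.k = 0
  · rw [factor_zero R t ht, mul_zero]
  have hs' : (s.k : ℕ) ≠ 0 := fun h0 => hs (Fin.ext h0)
  have ht' : (t.k : ℕ) ≠ 0 := fun h0 => ht (Fin.ext h0)
  have he1 : e s = ⟨s.u, 2⟩ := by rw [e_eq, if_neg hs]
  have he2 : e t = ⟨t.u, 2⟩ := by rw [e_eq, if_neg ht]
  have h2 : ((2 : Fin 3) : ℕ) = 2 := rfl
  have h1 : s + t = ⟨s.u ∪ t.u, 2⟩ := by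
    ext1
    · rfl
    · apply Fin.ext
      rw [add_k, h2]
      omega
  have h3 : s + ⟨t.u, 2⟩ = ⟨s.u ∪ t.u, 2⟩ := by
    ext1
    · rfl
    · apply Fin.ext
      rw [add_k, h2]
      omega
  have h4 : (⟨s.u, 2⟩ : M) + t = ⟨s.u ∪ t.u, 2⟩ := by
    ext1
    · rfl
    · apply Fin.ext
      rw [add_k, h2]
      omega
  have h5 : (⟨s.u, 2⟩ : M) + ⟨t.u, 2⟩ = ⟨s.u ∪ t.u, 2⟩ := by
    ext1
    · rfl
    · apply Fin.ext
      rw [add_k, h2]
      omega
  rw [factor, factor, he1, he2, sub_mul, mul_sub, mul_sub]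
  simp only [AddMonoidAlgebra.single_mul_single, h1, h3, h4, h5, mul_one, sub_self]

theorem foldl_zero {A : Type*} [NonUnitalNonAssocSemiring A] (l : List A) :
    l.foldl (· * ·) (0 : A) = 0 := by
  induction l with
  | nil => rfl
  | cons a l ih => rw [List.foldl_cons, zero_mul, ih]

theorem d_eq [Nontrivial R] : d M R = 1 := by
  unfold d
  apply le_antisymm
  · refine iSup₂_le fun ℓ hℓ => ?_
    obtain ⟨s, hs⟩ := hℓ
    by_contra hcon
    push Not at hcon
    have h2 : 2 ≤ ℓ := by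
      have : 1 < ℓ := by exact_mod_cast hcon
      omega
    obtain ⟨n, rfl⟩ : ∃ n, ℓ = n + 2 := ⟨ℓ - 2, by omega⟩
    have h3 := hs (fun _ => 1) fun _ => one_ne_zero
    rw [List.ofFn_succ, List.ofFn_succ, nonzeroProd_cons, List.foldl_cons, factor_mul,
      foldl_zero] at h3
    exact h3 rfl
  · refine le_iSup₂_of_le 1 ?_ (by simp)
    refine ⟨fun _ => ⟨∅, 1⟩, fun a _ => ?_⟩
    have h1 : (List.ofFn fun i : Fin 1 => factor R (⟨∅, 1⟩ : M) (a i)) =
        [factor R (⟨∅, 1⟩ : M) (a 0)] := by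
      simp
    rw [h1, nonzeroProd_cons, List.foldl_nil]
    intro h
    have hne : e (⟨∅, 1⟩ : M) ≠ ⟨∅, 1⟩ := by
      rw [e_eq]
      intro h
      have := congrArg M.k h
      simp at this
    have h4 := congrArg (fun f : AddMonoidAlgebra R M => f.coeff ⟨∅, 1⟩) h
    simp [factor, hne] at h4

end Ring

/-- the sequence -/
def seq (n : ℕ) (i : Fin (n + 1)) : M := ⟨{(i : ℕ)}, if i = 0 then 1 else 0⟩

/-- its sum -/
def tot (n : ℕ) : M := ⟨range (n + 1), 1⟩

theorem sum_seq (n : ℕ) : sum (fun i => ((seq n i : M) : (H M).Quotient)) univ =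
    (((tot n : M) : (H M).Quotient) : WithZero (H M).Quotient) := by
  obtain ⟨x, h1, h2, h3⟩ := sum_eq (seq n) univ univ_nonempty
  rw [h1]
  congr 2
  ext1
  · rw [h2]
    ext j
    simp only [mem_biUnion, mem_univ, true_and, seq, mem_singleton, tot, mem_range]
    constructor
    · rintro ⟨i, rfl⟩
      exact i.isLt
    · intro hj
      exact ⟨⟨j, hj⟩, rfl⟩
  · apply Fin.ext
    rw [h3]
    have : ∑ i : Fin (n + 1), ((seq n i).k : ℕ) = 1 := by
      rw [Finset.sum_eq_single 0]
      · simp [seq]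
      · intro i _ hi
        simp [seq, hi]
      · intro h
        exact absurd (mem_univ _) h
    rw [this]
    rfl

theorem not_reducible (n : ℕ) :
    ¬ Reducible (fun i => ((seq n i : M) : (H M).Quotient)) := by
  rintro (⟨I, hI, hne, hsum⟩ | ⟨z, hz, hsum⟩)
  · obtain ⟨y, h1, h2, -⟩ := sum_eq (seq n) I hne
    rw [h1, sum_seq] at hsum
    have hy : y = tot n := coe_inj (WithZero.coe_injective hsum)
    apply hI
    rw [eq_univ_iff_forall]
    intro i
    have hmem : (i : ℕ) ∈ y.u := by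
      rw [hy]
      exact mem_range.2 i.isLt
    rw [h2, mem_biUnion] at hmem
    obtain ⟨i', hi', hm⟩ := hmem
    simp only [seq, mem_singleton] at hm
    rwa [Fin.ext hm]
  · rw [sum_seq] at hsum
    have hz' : ((tot n : M) : (H M).Quotient) = z := WithZero.coe_injective hsum
    have h1 := hz (((⟨∅, 0⟩ : M) : M) : (H M).Quotient)
    rw [← hz', ← AddCon.coe_add] at h1
    have h2 := congrArg M.u (coe_inj h1)
    rw [add_u] at h2
    simp [tot] at h2

theorem not_group (n : ℕ) : ¬ IsGroup (tot n) := by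
  rintro ⟨z, ⟨m, rfl⟩, hz, -⟩
  have h1 := hz (tot n) ⟨0, rfl⟩
  have h2 := congrArg (fun x : M => (x.k : ℕ)) h1
  simp only [add_k, mult_k] at h2
  have h3 : ((tot n).k : ℕ) = 1 := rfl
  rw [h3] at h2
  omega

theorem le_D (n : ℕ) : ((n + 1 : ℕ) : ℕ∞) ≤ D ((tot n : M) : (H M).Quotient) :=
  le_iSup₂_of_le (n + 1) ⟨_, sum_seq n, not_reducible n⟩ le_rfl

/-- There is a commutative periodic semigroup `S` such that `d(S, R) = 1` for every nonzero
commutative ring `R`, but the `D_ā(S/H)` with `⟨a⟩` not a group are unbounded. -/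
theorem result : ∃ (S : Type) (_ : AddCommSemigroup S), Periodic S ∧
    (∀ (R : Type*) [CommRing R] [Nontrivial R], d S R = 1) ∧
    (⨆ a ∈ {a : S | ¬ IsGroup a}, D ((a : S) : (H S).Quotient)) = ⊤ := by
  refine ⟨M, inferInstance, periodic, fun R _ _ => d_eq R, ?_⟩
  by_contra hcon
  obtain ⟨m, hm⟩ := ENat.ne_top_iff_exists.1 hcon
  have h1 : ((m + 1 : ℕ) : ℕ∞) ≤ ⨆ a ∈ {a : M | ¬ IsGroup a}, D ((a : M) : (H M).Quotient) :=
    le_iSup₂_of_le (tot m) (not_group m) (le_D m)
  rw [← hm] at h1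
  have : m + 1 ≤ m := by exact_mod_cast h1
  omega

end Pool.Agent.Results.MP_6ad575_co.Unbounded
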